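import Mathlib

/-!
# Poncelet triangles of a pair of ellipses: definitions

The Euclidean plane is `ℂ` with its distance.
-/

namespace Pool.Agent.Poncelet543

open ComplexConjugate

/-- An ellipse of the Euclidean plane `ℂ`: foci `f`, `g` (equal for a circle) and semi-major
axis `a`, with `|f - g| < 2 a`. -/
structure Ellipse where
  f : ℂ
  g : ℂ
  a : ℝ
  lt : ‖f - g‖ < 2 * a

/-- The points of the ellipse. -/
def Ellipse.curve (E : Ellipse) : Set ℂ := {z | ‖z - E.f‖ + ‖z - E.g‖ = 2 * E.a}

/-- The points strictly inside the ellipse. -/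
def Ellipse.inside (E : Ellipse) : Set ℂ := {z | ‖z - E.f‖ + ‖z - E.g‖ < 2 * E.a}

/-- The centre of the ellipse. -/
noncomputable def Ellipse.center (E : Ellipse) : ℂ := (E.f + E.g) / 2

/-- The axes of `E` are parallel to those of `F`: the vectors `f - g` of the two ellipses are
parallel or perpendicular (this includes the case that one of the ellipses is a circle). -/
def AxesParallel (E F : Ellipse) : Prop :=
  ((E.f - E.g) * conj (F.f - F.g)).im = 0 ∨ ((E.f - E.g) * conj (F.f - F.g)).re = 0

/-- The line through `A` and `B` is tangent to the ellipse `F`: it meets `F` in exactly one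
point. -/
def TangentLine (F : Ellipse) (A B : ℂ) : Prop := ∃! z, z ∈ F.curve ∧ z ∈ line[ℝ, A, B]

/-- `ABC` is a triangle with its vertices on `E` and its sides tangent to `F` (a 3-periodic). -/
structure IsPeriodic (E F : Ellipse) (A B C : ℂ) : Prop where
  tri : ¬ Collinear ℝ {A, B, C}
  memA : A ∈ E.curve
  memB : B ∈ E.curve
  memC : C ∈ E.curve
  tanAB : TangentLine F A B
  tanBC : TangentLine F B C
  tanCA : TangentLine F C A

/-- The circle with centre `O` and radius `r` passes through `X`, `Y`, `Z`. -/
def CircleThrough (X Y Z O : ℂ) (r : ℝ) : Prop :=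
  0 < r ∧ dist X O = r ∧ dist Y O = r ∧ dist Z O = r

/-- The circle with centre `O` and radius `r` is the Euler (nine-point) circle of `ABC`: it passes
through the midpoints of the sides. -/
def EulerCircle (A B C O : ℂ) (r : ℝ) : Prop :=
  CircleThrough (midpoint ℝ A B) (midpoint ℝ B C) (midpoint ℝ C A) O r

/-- The power of the point `P` with respect to the circle with centre `O` and radius `r`. -/
noncomputable def power (P O : ℂ) (r : ℝ) : ℝ := dist P O ^ 2 - r ^ 2

end Pool.Agent.Poncelet543
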