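import Mathlib
import Pool.Agent.Poncelet543.Defs

/-!
# Powers of points with respect to the circumcircle and the Euler circle of Poncelet triangles

In affine coordinates in which the outer ellipse is the unit circle, a triangle with vertices
`x, y, z` is a 3-periodic exactly if `x + y + z = s + q̄ l` and `xy + yz + zx = s̄ l + q` with `l = xyz`
(`Fam`), where `s`, `q` are the sum and the product of the foci of the inner ellipse.  All the
quantities needed are then trigonometric polynomials of degree one in `l`.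
-/

namespace Pool.Agent.Poncelet543

open ComplexConjugate

/-- `z ↦ c + u z + v z̄` maps the unit circle onto `E`. -/
structure Param (E : Ellipse) (c u v : ℂ) : Prop where
  lt : ‖v‖ < ‖u‖
  cen : E.f + E.g = 2 * c
  foc : (E.f - E.g) ^ 2 = 16 * (u * v)
  ax : E.a = ‖u‖ + ‖v‖

theorem exists_sq (z : ℂ) : ∃ w : ℂ, w ^ 2 = z :=
  IsAlgClosed.exists_pow_nat_eq z (by norm_num)

theorem Ellipse.exists_param (E : Ellipse) : ∃ c u v, Param E c u v := by
  obtain ⟨w, hw⟩ : ∃ w : ℂ, w = (E.f - E.g) / 4 := ⟨_, rfl⟩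
  have hlt := E.lt
  have hfg : E.f - E.g = 4 * w := by rw [hw]; ring
  have hnorm : ‖E.f - E.g‖ = 4 * ‖w‖ := by rw [hfg]; simp
  have h2 : 2 * ‖w‖ < E.a := by rw [hnorm] at hlt; linarith
  have hw0 := norm_nonneg w
  have ha : 0 < E.a := by linarith
  obtain ⟨b, hb⟩ : ∃ b : ℝ, b = Real.sqrt (E.a ^ 2 - 4 * ‖w‖ ^ 2) := ⟨_, rfl⟩
  have hb1 : 0 < E.a ^ 2 - 4 * ‖w‖ ^ 2 := by nlinarith
  have hb0 : 0 < b := by rw [hb]; exact Real.sqrt_pos.2 hb1
  have hb2 : b ^ 2 = E.a ^ 2 - 4 * ‖w‖ ^ 2 := by rw [hb]; exact Real.sq_sqrt hb1.le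
  have hu : 0 < (E.a + b) / 2 := by linarith
  have hu' : (((E.a + b) / 2 : ℝ) : ℂ) ≠ 0 := by exact_mod_cast hu.ne'
  have hnv : ‖w ^ 2 / (((E.a + b) / 2 : ℝ) : ℂ)‖ = (E.a - b) / 2 := by
    rw [norm_div, norm_pow, Complex.norm_real, Real.norm_eq_abs, abs_of_pos hu,
      div_eq_iff hu.ne']
    nlinarith
  have hnu : ‖(((E.a + b) / 2 : ℝ) : ℂ)‖ = (E.a + b) / 2 := by
    rw [Complex.norm_real, Real.norm_eq_abs, abs_of_pos hu]
  refine ⟨(E.f + E.g) / 2, ((E.a + b) / 2 : ℝ), w ^ 2 / ((E.a + b) / 2 : ℝ), ?_, ?_, ?_, ?_⟩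
  · rw [hnv, hnu]; linarith
  · ring
  · rw [mul_div_cancel₀ _ hu', hfg]; ring
  · rw [hnv, hnu]; ring

theorem exists_ellipse (c u v : ℂ) (h : ‖v‖ < ‖u‖) : ∃ E : Ellipse, Param E c u v := by
  obtain ⟨w, hw⟩ := exists_sq (u * v)
  have hv := norm_nonneg v
  have hw2 : ‖w‖ ^ 2 = ‖u‖ * ‖v‖ := by rw [← norm_pow, hw, norm_mul]
  refine ⟨⟨c + 2 * w, c - 2 * w, ‖u‖ + ‖v‖, ?_⟩, h, ?_, ?_, rfl⟩
  · rw [show c + 2 * w - (c - 2 * w) = 4 * w by ring, norm_mul]
    have : ‖(4 : ℂ)‖ = 4 := by simp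
    rw [this]
    have h0 := norm_nonneg w
    nlinarith [sq_nonneg (‖u‖ - ‖v‖)]
  · show c + 2 * w + (c - 2 * w) = 2 * c
    ring
  · show (c + 2 * w - (c - 2 * w)) ^ 2 = 16 * (u * v)
    rw [← hw]; ring

theorem unit_sum {u v w ζ : ℂ} (hu : u ≠ 0) (hw : w ^ 2 = u * v) (hζ : ‖ζ‖ = 1) :
    ‖u * ζ + v * conj ζ - 2 * w‖ + ‖u * ζ + v * conj ζ + 2 * w‖ = 2 * (‖u‖ + ‖v‖) := by
  obtain ⟨η, hη⟩ := exists_sq ζ
  obtain ⟨μ, hμ⟩ := exists_sq u
  have hμ0 : μ ≠ 0 := by
    rintro rfl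
    apply hu
    rw [← hμ]; simp
  have hη1 : ‖η‖ = 1 := by
    have : ‖η‖ ^ 2 = 1 := by rw [← norm_pow, hη, hζ]
    have h0 := norm_nonneg η
    nlinarith
  have hηη : η * conj η = 1 := by
    rw [Complex.mul_conj, Complex.normSq_eq_norm_sq, hη1]; simp
  obtain ⟨ν, hν⟩ : ∃ ν : ℂ, ν = w / μ := ⟨_, rfl⟩
  have hw' : w = μ * ν := by rw [hν]; field_simp
  have hν2 : ν ^ 2 = v := by
    have h1 : μ ^ 2 * ν ^ 2 = μ ^ 2 * v := by
      rw [← mul_pow, ← hw', hw, hμ]
    exact mul_left_cancel₀ (pow_ne_zero 2 hμ0) h1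
  have e1 : u * ζ + v * conj ζ - 2 * w = (μ * η - ν * conj η) ^ 2 := by
    rw [← hη, ← hμ, ← hν2, hw', map_pow]
    linear_combination (2 * μ * ν) * hηη
  have e2 : u * ζ + v * conj ζ + 2 * w = (μ * η + ν * conj η) ^ 2 := by
    rw [← hη, ← hμ, ← hν2, hw', map_pow]
    linear_combination (-2 * μ * ν) * hηη
  rw [e1, e2, norm_pow, norm_pow]
  have := parallelogram_law_with_norm ℝ (μ * η) (ν * conj η)
  have n1 : ‖μ * η‖ ^ 2 = ‖u‖ := by
    rw [norm_mul, hη1, ← hμ, norm_pow, mul_one]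
  have n2 : ‖ν * conj η‖ ^ 2 = ‖v‖ := by
    rw [norm_mul, RCLike.norm_conj, hη1, ← hν2, norm_pow, mul_one]
  rw [n1, n2] at this
  linarith

/-- The sum of the distances to the foci, in the coordinates of a parametrisation. -/
theorem Param.trichotomy {E : Ellipse} {c u v : ℂ} (h : Param E c u v) (z : ℂ) :
    (‖z‖ < 1 → c + u * z + v * conj z ∈ E.inside) ∧
    (‖z‖ = 1 → c + u * z + v * conj z ∈ E.curve) ∧
    (1 < ‖z‖ → 2 * E.a < ‖c + u * z + v * conj z - E.f‖ + ‖c + u * z + v * conj z - E.g‖) := by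
  obtain ⟨hlt, hcen, hfoc, hax⟩ := h
  obtain ⟨w, hw⟩ : ∃ w : ℂ, w = (E.f - E.g) / 4 := ⟨_, rfl⟩
  have hf : E.f = c + 2 * w := by rw [hw]; linear_combination (1 / 2 : ℂ) * hcen
  have hg : E.g = c - 2 * w := by rw [hw]; linear_combination (1 / 2 : ℂ) * hcen
  have hw2 : w ^ 2 = u * v := by
    rw [hw]; linear_combination (1 / 16 : ℂ) * hfoc
  have hu : u ≠ 0 := by
    rintro rfl
    simp at hlt
    exact absurd hlt (not_lt.2 (norm_nonneg v))
  have hwn : ‖w‖ ^ 2 = ‖u‖ * ‖v‖ := by rw [← norm_pow, hw2, norm_mul]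
  have h0w := norm_nonneg w
  have h0v := norm_nonneg v
  have hwa : 2 * ‖w‖ < ‖u‖ + ‖v‖ := by nlinarith [sq_nonneg (‖u‖ - ‖v‖)]
  have s1 : c + u * z + v * conj z - E.f = u * z + v * conj z - 2 * w := by rw [hf]; ring
  have s2 : c + u * z + v * conj z - E.g = u * z + v * conj z + 2 * w := by rw [hg]; ring
  have n2w : ‖2 * w‖ = 2 * ‖w‖ := by simp
  simp only [Ellipse.inside, Ellipse.curve, Set.mem_ofPred_eq]
  rw [s1, s2, hax]
  rcases eq_or_ne z 0 with rfl | hz
  · refine ⟨fun _ => ?_, fun h1 => ?_, fun h1 => ?_⟩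
    · simp only [mul_zero, map_zero, add_zero, zero_sub, zero_add, norm_neg]
      rw [n2w]; linarith
    · simp at h1
    · simp at h1
      linarith
  · obtain ⟨ρ, hρ⟩ : ∃ ρ : ℝ, ρ = ‖z‖ := ⟨_, rfl⟩
    have hρ0 : 0 < ρ := by rw [hρ]; exact norm_pos_iff.2 hz
    have hρc : (ρ : ℂ) ≠ 0 := by exact_mod_cast hρ0.ne'
    obtain ⟨ζ, hζ⟩ : ∃ ζ : ℂ, ζ = z / ρ := ⟨_, rfl⟩
    have hz' : z = ρ * ζ := by rw [hζ]; field_simp
    have hζ1 : ‖ζ‖ = 1 := by
      rw [hζ, norm_div, Complex.norm_real, Real.norm_eq_abs, abs_of_pos hρ0, ← hρ]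
      exact div_self hρ0.ne'
    have hsum := unit_sum hu hw2 hζ1
    obtain ⟨x, hx⟩ : ∃ x : ℂ, x = u * ζ + v * conj ζ := ⟨_, rfl⟩
    have hxz : u * z + v * conj z = ρ * x := by
      rw [hx, hz', map_mul, Complex.conj_ofReal]; ring
    rw [hxz]
    rw [← hx] at hsum
    rw [← hρ]
    refine ⟨fun h1 => ?_, fun h1 => ?_, fun h1 => ?_⟩
    · have a1 : ‖(ρ : ℂ) * x - 2 * w‖ ≤ ρ * ‖x - 2 * w‖ + (1 - ρ) * (2 * ‖w‖) := by
        rw [show (ρ : ℂ) * x - 2 * w = (ρ : ℂ) * (x - 2 * w) - ((1 - ρ : ℝ) : ℂ) * (2 * w) by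
          push_cast; ring]
        refine (norm_sub_le _ _).trans ?_
        rw [norm_mul, norm_mul, Complex.norm_real, Complex.norm_real, Real.norm_eq_abs,
          Real.norm_eq_abs, abs_of_pos hρ0, abs_of_pos (by linarith : 0 < 1 - ρ), n2w]
      have a2 : ‖(ρ : ℂ) * x + 2 * w‖ ≤ ρ * ‖x + 2 * w‖ + (1 - ρ) * (2 * ‖w‖) := by
        rw [show (ρ : ℂ) * x + 2 * w = (ρ : ℂ) * (x + 2 * w) + ((1 - ρ : ℝ) : ℂ) * (2 * w) by
          push_cast; ring]
        refine (norm_add_le _ _).trans ?_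
        rw [norm_mul, norm_mul, Complex.norm_real, Complex.norm_real, Real.norm_eq_abs,
          Real.norm_eq_abs, abs_of_pos hρ0, abs_of_pos (by linarith : 0 < 1 - ρ), n2w]
      nlinarith
    · rw [h1]; simpa using hsum
    · have a1 : ρ * ‖x - 2 * w‖ ≤ ‖(ρ : ℂ) * x - 2 * w‖ + (ρ - 1) * (2 * ‖w‖) := by
        have e : (ρ : ℂ) * (x - 2 * w) = ((ρ : ℂ) * x - 2 * w) - ((ρ - 1 : ℝ) : ℂ) * (2 * w) := by
          push_cast; ring
        have e2 := norm_sub_le ((ρ : ℂ) * x - 2 * w) (((ρ - 1 : ℝ) : ℂ) * (2 * w))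
        rw [← e, norm_mul, norm_mul, Complex.norm_real, Complex.norm_real, Real.norm_eq_abs,
          Real.norm_eq_abs, abs_of_pos hρ0, abs_of_pos (by linarith : 0 < ρ - 1), n2w] at e2
        exact e2
      have a2 : ρ * ‖x + 2 * w‖ ≤ ‖(ρ : ℂ) * x + 2 * w‖ + (ρ - 1) * (2 * ‖w‖) := by
        have e : (ρ : ℂ) * (x + 2 * w) = ((ρ : ℂ) * x + 2 * w) + ((ρ - 1 : ℝ) : ℂ) * (2 * w) := by
          push_cast; ring
        have e2 := norm_add_le ((ρ : ℂ) * x + 2 * w) (((ρ - 1 : ℝ) : ℂ) * (2 * w))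
        rw [← e, norm_mul, norm_mul, Complex.norm_real, Complex.norm_real, Real.norm_eq_abs,
          Real.norm_eq_abs, abs_of_pos hρ0, abs_of_pos (by linarith : 0 < ρ - 1), n2w] at e2
        exact e2
      nlinarith

theorem Param.mem_curve {E : Ellipse} {c u v : ℂ} (h : Param E c u v) (z : ℂ) :
    c + u * z + v * conj z ∈ E.curve ↔ ‖z‖ = 1 := by
  refine ⟨fun hz => ?_, (h.trichotomy z).2.1⟩
  simp only [Ellipse.curve, Set.mem_ofPred_eq] at hz
  rcases lt_trichotomy ‖z‖ 1 with h1 | h1 | h1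
  · have := (h.trichotomy z).1 h1
    simp only [Ellipse.inside, Set.mem_ofPred_eq] at this
    linarith
  · exact h1
  · have := (h.trichotomy z).2.2 h1
    linarith

theorem Param.mem_inside {E : Ellipse} {c u v : ℂ} (h : Param E c u v) (z : ℂ) :
    c + u * z + v * conj z ∈ E.inside ↔ ‖z‖ < 1 := by
  refine ⟨fun hz => ?_, (h.trichotomy z).1⟩
  simp only [Ellipse.inside, Set.mem_ofPred_eq] at hz
  rcases lt_trichotomy ‖z‖ 1 with h1 | h1 | h1
  · exact h1
  · have := (h.trichotomy z).2.1 h1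
    simp only [Ellipse.curve, Set.mem_ofPred_eq] at this
    linarith
  · have := (h.trichotomy z).2.2 h1
    linarith

theorem normSq_sub_ne {u v : ℂ} (h : ‖v‖ < ‖u‖) : u * conj u - v * conj v ≠ 0 := by
  rw [Complex.mul_conj, Complex.mul_conj, Complex.normSq_eq_norm_sq, Complex.normSq_eq_norm_sq]
  intro h0
  have h1 : ‖u‖ ^ 2 - ‖v‖ ^ 2 = 0 := by exact_mod_cast h0
  have := norm_nonneg v
  nlinarith

theorem surj {u v : ℂ} (h : ‖v‖ < ‖u‖) (c w : ℂ) : ∃ z, w = c + u * z + v * conj z := by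
  have h0 := normSq_sub_ne h
  have h0' : conj u * u - conj v * v ≠ 0 := by
    intro h1; apply h0; linear_combination h1
  refine ⟨(conj u * (w - c) - v * conj (w - c)) / (u * conj u - v * conj v), ?_⟩
  simp only [map_div₀, map_sub, map_mul, Complex.conj_conj]
  field_simp
  ring

theorem inj {u v : ℂ} (h : ‖v‖ < ‖u‖) {z z' : ℂ}
    (e : u * z + v * conj z = u * z' + v * conj z') : z = z' := by
  have h0 := normSq_sub_ne h
  have e' := congrArg conj e
  simp only [map_add, map_mul, Complex.conj_conj] at e'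
  have : (u * conj u - v * conj v) * (z - z') = 0 := by
    linear_combination conj u * e - v * e'
  rcases mul_eq_zero.1 this with h1 | h1
  · exact absurd h1 h0
  · exact sub_eq_zero.1 h1


/-! ### Tangent lines in the coordinates of the outer ellipse -/

theorem mul_conj_of_norm {z : ℂ} (h : ‖z‖ = 1) : z * conj z = 1 := by
  rw [Complex.mul_conj, Complex.normSq_eq_norm_sq, h]; simp

theorem norm_of_mul_conj {z : ℂ} (h : z * conj z = 1) : ‖z‖ = 1 := by
  rw [Complex.mul_conj, Complex.normSq_eq_norm_sq] at h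
  have h1 : ‖z‖ ^ 2 = 1 := by exact_mod_cast h
  have := norm_nonneg z
  nlinarith

theorem tangent_alg {c u v m n : ℂ} (h : ‖v‖ < ‖u‖) (hm : m * conj m = 1) (hn : n = m * conj n) :
    (∃! ζ : ℂ, ‖ζ‖ = 1 ∧ (c + u * ζ + v * conj ζ) + m * conj (c + u * ζ + v * conj ζ) = n) ↔
      (n - c - m * conj c) ^ 2 = 4 * (u + m * conj v) * (v + m * conj u) := by
  have hm1 : ‖m‖ = 1 := norm_of_mul_conj hm
  have ha2 : u + m * conj v ≠ 0 := by
    intro h0
    have h1 : u = - (m * conj v) := by linear_combination h0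
    have h2 : ‖u‖ = ‖v‖ := by
      rw [h1, norm_neg, norm_mul, hm1, RCLike.norm_conj, one_mul]
    rw [h2] at h
    exact lt_irrefl _ h
  have ha0 : v + m * conj u = m * conj (u + m * conj v) := by
    rw [map_add, map_mul, Complex.conj_conj]
    linear_combination (- v) * hm
  have hN : n - c - m * conj c = m * conj (n - c - m * conj c) := by
    simp only [map_sub, map_mul, Complex.conj_conj]
    linear_combination hn - (-c) * hm
  have key : ∀ ζ : ℂ, ‖ζ‖ = 1 →
      ((c + u * ζ + v * conj ζ) + m * conj (c + u * ζ + v * conj ζ) = n ↔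
        (u + m * conj v) * ζ ^ 2 - (n - c - m * conj c) * ζ + (v + m * conj u) = 0) := by
    intro ζ hζ
    have hζ1 := mul_conj_of_norm hζ
    have hζ0 : ζ ≠ 0 := by
      rintro rfl
      simp at hζ
    simp only [map_add, map_mul, Complex.conj_conj]
    constructor
    · intro e
      linear_combination ζ * e - (v + m * conj u) * hζ1
    · intro e
      apply mul_left_cancel₀ hζ0
      linear_combination e + (v + m * conj u) * hζ1
  constructor
  · rintro ⟨ζ, ⟨hζ, e⟩, huniq⟩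
    rw [key ζ hζ] at e
    have hζ0 : ζ ≠ 0 := by
      rintro rfl
      simp at hζ
    obtain ⟨ζ', hζ'⟩ : ∃ ζ' : ℂ, ζ' = (v + m * conj u) / ((u + m * conj v) * ζ) := ⟨_, rfl⟩
    have e1 : (u + m * conj v) * ζ * ζ' = v + m * conj u := by
      rw [hζ']; field_simp
    have hn' : ‖ζ'‖ = 1 := by
      rw [hζ', norm_div, norm_mul, ha0, norm_mul, hm1, RCLike.norm_conj, hζ, one_mul, mul_one]
      exact div_self (norm_ne_zero_iff.2 ha2)
    have e2 : (u + m * conj v) * ζ' ^ 2 - (n - c - m * conj c) * ζ' + (v + m * conj u) = 0 := by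
      apply mul_left_cancel₀ hζ0
      linear_combination ζ' * e + (ζ' - ζ) * e1
    have := huniq ζ' ⟨hn', (key ζ' hn').2 e2⟩
    rw [this] at e1
    have e3 : n - c - m * conj c = 2 * (u + m * conj v) * ζ := by
      apply mul_right_cancel₀ hζ0
      linear_combination (-1 : ℂ) * e - e1
    rw [e3, ← e1]
    ring
  · intro e
    obtain ⟨ζ, hζ⟩ : ∃ ζ : ℂ, ζ = (n - c - m * conj c) / (2 * (u + m * conj v)) := ⟨_, rfl⟩
    have e1 : 2 * (u + m * conj v) * ζ = n - c - m * conj c := by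
      rw [hζ]; field_simp
    have e2 : (u + m * conj v) * ζ ^ 2 = v + m * conj u := by
      apply mul_left_cancel₀ (mul_ne_zero (by norm_num : (4 : ℂ) ≠ 0) ha2)
      have : 4 * (u + m * conj v) * ((u + m * conj v) * ζ ^ 2) =
        (2 * (u + m * conj v) * ζ) ^ 2 := by ring
      rw [this, e1, e]
    have hn1 : ‖ζ‖ = 1 := by
      have h1 : ‖u + m * conj v‖ * ‖ζ‖ ^ 2 = ‖u + m * conj v‖ := by
        rw [← norm_pow, ← norm_mul, e2, ha0, norm_mul, hm1, RCLike.norm_conj, one_mul]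
      have h2 : ‖ζ‖ ^ 2 = 1 := by
        apply mul_left_cancel₀ (norm_ne_zero_iff.2 ha2)
        rw [h1, mul_one]
      have := norm_nonneg ζ
      nlinarith
    refine ⟨ζ, ⟨hn1, (key ζ hn1).2 ?_⟩, ?_⟩
    · linear_combination (-1 : ℂ) * e2 + ζ * e1
    · rintro ξ ⟨hξ, e3⟩
      rw [key ξ hξ] at e3
      have e4 : (u + m * conj v) * (ξ - ζ) ^ 2 = 0 := by
        linear_combination e3 + e2 - ξ * e1
      rcases mul_eq_zero.1 e4 with h1 | h1
      · exact absurd h1 ha2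
      · exact sub_eq_zero.1 (pow_eq_zero_iff (two_ne_zero) |>.1 h1)

/-- The chord through two points of the unit circle. -/
theorem chord_iff {x y z : ℂ} (hx : x * conj x = 1) (hy : y * conj y = 1) (hxy : x ≠ y) :
    (∃ t : ℝ, z = x + t * (y - x)) ↔ z + (x * y) * conj z = x + y := by
  constructor
  · rintro ⟨t, rfl⟩
    simp only [map_add, map_mul, map_sub, Complex.conj_ofReal]
    linear_combination (y + (- t) * y) * hx + t * x * hy
  · intro e
    have hyx : y - x ≠ 0 := sub_ne_zero.2 hxy.symm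
    have hx0 : x ≠ 0 := by rintro rfl; simp at hx
    have hy0 : y ≠ 0 := by rintro rfl; simp at hy
    have hc : conj (y - x) ≠ 0 := by
      rw [Ne, map_eq_zero]; exact hyx
    obtain ⟨t, ht⟩ : ∃ t : ℂ, t = (z - x) / (y - x) := ⟨_, rfl⟩
    have ht1 : t * (y - x) = z - x := by rw [ht]; field_simp
    have ht2 : conj t * (conj y - conj x) = conj z - conj x := by
      have := congrArg conj ht1
      simpa using this
    have ht3 : conj t = t := by
      have h1 : (x * y) * (conj z - conj x) = x - z := by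
        linear_combination e - y * hx
      have h2 : (x * y) * (conj y - conj x) = x - y := by
        linear_combination x * hy - y * hx
      have h3 : conj t * (x - y) = t * (x - y) := by
        linear_combination (-(conj t)) * h2 + (x * y) * ht2 + h1 + ht1
      exact mul_right_cancel₀ (sub_ne_zero.2 hxy) h3
    obtain ⟨r, hr⟩ := Complex.conj_eq_iff_real.1 ht3
    refine ⟨r, ?_⟩
    rw [← hr]
    linear_combination -ht1

theorem mem_line {A B w : ℂ} : w ∈ line[ℝ, A, B] ↔ ∃ t : ℝ, w = A + t * (B - A) := by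
  rw [mem_affineSpan_pair_iff_exists_lineMap_eq]
  constructor
  · rintro ⟨t, rfl⟩
    refine ⟨t, ?_⟩
    rw [AffineMap.lineMap_apply]
    simp [Complex.real_smul]
    ring
  · rintro ⟨t, rfl⟩
    refine ⟨t, ?_⟩
    rw [AffineMap.lineMap_apply]
    simp [Complex.real_smul]
    ring

/-- The parametrisation of `F` in the coordinates of `E`. -/
structure Rel2 (c u v c' u' v' c₁ u₁ v₁ : ℂ) : Prop where
  lt : ‖v₁‖ < ‖u₁‖
  e1 : c' = c + u * c₁ + v * conj c₁
  e2 : u' = u * u₁ + v * conj v₁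
  e3 : v' = u * v₁ + v * conj u₁

theorem Rel2.eval {c u v c' u' v' c₁ u₁ v₁ : ℂ} (h : Rel2 c u v c' u' v' c₁ u₁ v₁) (ζ : ℂ) :
    c' + u' * ζ + v' * conj ζ = c + u * (c₁ + u₁ * ζ + v₁ * conj ζ) +
      v * conj (c₁ + u₁ * ζ + v₁ * conj ζ) := by
  rw [h.e1, h.e2, h.e3]
  simp only [map_add, map_mul, Complex.conj_conj]
  ring

theorem norm_lt_iff {u v : ℂ} : ‖v‖ < ‖u‖ ↔ 0 < (u * conj u - v * conj v).re := by
  rw [Complex.mul_conj, Complex.mul_conj, Complex.normSq_eq_norm_sq, Complex.normSq_eq_norm_sq]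
  rw [← Complex.ofReal_sub, Complex.ofReal_re, sub_pos]
  exact (pow_lt_pow_iff_left₀ (norm_nonneg v) (norm_nonneg u) two_ne_zero).symm

theorem exists_rel2 (c u v c' u' v' : ℂ) (h : ‖v‖ < ‖u‖) (h' : ‖v'‖ < ‖u'‖) :
    ∃ c₁ u₁ v₁, Rel2 c u v c' u' v' c₁ u₁ v₁ := by
  obtain ⟨c₁, hc₁⟩ := surj h c c'
  have h0 := normSq_sub_ne h
  have h0' : conj u * u - conj v * v ≠ 0 := by
    intro h1; apply h0; linear_combination h1
  obtain ⟨u₁, hu₁⟩ : ∃ z : ℂ, z = (conj u * u' - v * conj v') / (u * conj u - v * conj v) :=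
    ⟨_, rfl⟩
  obtain ⟨v₁, hv₁⟩ : ∃ z : ℂ, z = (conj u * v' - v * conj u') / (u * conj u - v * conj v) :=
    ⟨_, rfl⟩
  have e2 : u' = u * u₁ + v * conj v₁ := by
    rw [hu₁, hv₁]
    simp only [map_div₀, map_sub, map_mul, Complex.conj_conj]
    field_simp
    ring
  have e3 : v' = u * v₁ + v * conj u₁ := by
    rw [hu₁, hv₁]
    simp only [map_div₀, map_sub, map_mul, Complex.conj_conj]
    field_simp
    ring
  refine ⟨c₁, u₁, v₁, ?_, hc₁, e2, e3⟩
  rw [norm_lt_iff] at h h' ⊢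
  have e4 : u' * conj u' - v' * conj v' =
      (u * conj u - v * conj v) * (u₁ * conj u₁ - v₁ * conj v₁) := by
    rw [e2, e3]
    simp only [map_add, map_mul, Complex.conj_conj]
    ring
  have e5 : (u * conj u - v * conj v).im = 0 := by
    rw [Complex.mul_conj, Complex.mul_conj, ← Complex.ofReal_sub, Complex.ofReal_im]
  rw [e4, Complex.mul_re, e5, zero_mul, sub_zero] at h'
  exact (pos_iff_pos_of_mul_pos h').1 h

theorem tangent_iff {F : Ellipse} {c u v c' u' v' c₁ u₁ v₁ x y : ℂ} (h : ‖v‖ < ‖u‖)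
    (hF : Param F c' u' v') (hr : Rel2 c u v c' u' v' c₁ u₁ v₁) (hx : x * conj x = 1)
    (hy : y * conj y = 1) (hxy : x ≠ y) :
    TangentLine F (c + u * x + v * conj x) (c + u * y + v * conj y) ↔
      (x + y - c₁ - (x * y) * conj c₁) ^ 2 =
        4 * (u₁ + (x * y) * conj v₁) * (v₁ + (x * y) * conj u₁) := by
  have hm : (x * y) * conj (x * y) = 1 := by
    rw [map_mul]; linear_combination (y * conj y) * hx + hy
  have hn : x + y = (x * y) * conj (x + y) := by
    rw [map_add]; linear_combination (-y) * hx - x * hy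
  rw [← tangent_alg hr.lt hm hn]
  have key : ∀ z : ℂ, (c + u * z + v * conj z ∈
      line[ℝ, c + u * x + v * conj x, c + u * y + v * conj y] ↔ z + (x * y) * conj z = x + y) := by
    intro z
    rw [← chord_iff hx hy hxy, mem_line]
    constructor
    · rintro ⟨t, ht⟩
      refine ⟨t, ?_⟩
      apply inj h
      simp only [map_add, map_mul, map_sub, Complex.conj_ofReal]
      linear_combination ht
    · rintro ⟨t, rfl⟩
      refine ⟨t, ?_⟩
      simp only [map_add, map_mul, map_sub, Complex.conj_ofReal]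
      ring
  constructor
  · rintro ⟨w, ⟨hw, hl⟩, huniq⟩
    obtain ⟨ζ, rfl⟩ := surj hF.lt c' w
    rw [hF.mem_curve] at hw
    rw [hr.eval, key] at hl
    refine ⟨ζ, ⟨hw, hl⟩, ?_⟩
    rintro ξ ⟨hξ, e⟩
    have e' := (key _).2 e
    rw [← hr.eval] at e'
    have := huniq _ ⟨(hF.mem_curve ξ).2 hξ, e'⟩
    apply inj hF.lt
    linear_combination this
  · rintro ⟨ζ, ⟨hζ, e⟩, huniq⟩
    have e' := (key _).2 e
    rw [← hr.eval] at e'
    refine ⟨_, ⟨(hF.mem_curve ζ).2 hζ, e'⟩, ?_⟩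
    rintro w ⟨hw, hl⟩
    obtain ⟨ξ, rfl⟩ := surj hF.lt c' w
    rw [hF.mem_curve] at hw
    rw [hr.eval, key] at hl
    have := huniq ξ ⟨hw, hl⟩
    rw [this]


/-! ### The family of cubic polynomials -/

theorem quartic {x y z b0 b1 b2 b3 b4 : ℂ} (hxy : x ≠ y) (hyz : y ≠ z) (hxz : x ≠ z)
    (hx : b4 * x ^ 4 + b3 * x ^ 3 + b2 * x ^ 2 + b1 * x + b0 = 0)
    (hy : b4 * y ^ 4 + b3 * y ^ 3 + b2 * y ^ 2 + b1 * y + b0 = 0)
    (hz : b4 * z ^ 4 + b3 * z ^ 3 + b2 * z ^ 2 + b1 * z + b0 = 0) :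
    b0 = -(b3 + b4 * (x + y + z)) * (x * y * z) ∧
      b2 = b4 * (x * y + y * z + z * x) - (b3 + b4 * (x + y + z)) * (x + y + z) := by
  have D1 : b4 * (x ^ 3 + x ^ 2 * y + x * y ^ 2 + y ^ 3) + b3 * (x ^ 2 + x * y + y ^ 2) +
      b2 * (x + y) + b1 = 0 := by
    apply mul_left_cancel₀ (sub_ne_zero.2 hxy)
    linear_combination hx - hy
  have D2 : b4 * (y ^ 3 + y ^ 2 * z + y * z ^ 2 + z ^ 3) + b3 * (y ^ 2 + y * z + z ^ 2) +
      b2 * (y + z) + b1 = 0 := by
    apply mul_left_cancel₀ (sub_ne_zero.2 hyz)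
    linear_combination hy - hz
  have D3 : b4 * (x ^ 2 + y ^ 2 + z ^ 2 + x * y + y * z + x * z) + b3 * (x + y + z) + b2 = 0 := by
    apply mul_left_cancel₀ (sub_ne_zero.2 hxz)
    linear_combination D1 - D2
  constructor
  · linear_combination hx - x * D1 + x * y * D3
  · linear_combination D3

/-- The tangency equation of the chord with parameters `m = xy`, `n = x + y`. -/
def TEq (c u v m n : ℂ) : Prop :=
  (n - c - m * conj c) ^ 2 = 4 * (u + m * conj v) * (v + m * conj u)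

/-- The relations that describe the Poncelet family. -/
def Fam (s q x y z : ℂ) : Prop :=
  x + y + z = s + conj q * (x * y * z) ∧
    x * y + y * z + z * x = conj s * (x * y * z) + q

theorem fam_of_teq {c u v x y z : ℂ} (hx : x * conj x = 1) (hy : y * conj y = 1)
    (hz : z * conj z = 1) (hxy : x ≠ y) (hyz : y ≠ z) (hxz : x ≠ z)
    (h1 : TEq c u v (x * y) (x + y)) (h2 : TEq c u v (y * z) (y + z))
    (h3 : TEq c u v (z * x) (z + x)) : Fam (2 * c) (c ^ 2 - 4 * u * v) x y z := by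
  have hx0 : x ≠ 0 := by rintro rfl; simp at hx
  have hy0 : y ≠ 0 := by rintro rfl; simp at hy
  have hz0 : z ≠ 0 := by rintro rfl; simp at hz
  unfold TEq at h1 h2 h3
  obtain ⟨r1, r2⟩ := quartic (b4 := 1) (b3 := 2 * c - 2 * (x + y + z))
    (b2 := (x + y + z) ^ 2 - (x + y + z) * (2 * c) + conj (2 * c) * (x * y * z) +
      (c ^ 2 - 4 * u * v))
    (b1 := (2 * c * conj c - 4 * (u * conj u + v * conj v)) * (x * y * z) -
      (x + y + z) * conj (2 * c) * (x * y * z))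
    (b0 := conj (c ^ 2 - 4 * u * v) * (x * y * z) ^ 2) hxy hyz hxz
    (by
      simp only [map_sub, map_mul, map_pow, Complex.conj_ofNat]
      linear_combination x ^ 2 * h2)
    (by
      simp only [map_sub, map_mul, map_pow, Complex.conj_ofNat]
      linear_combination y ^ 2 * h3)
    (by
      simp only [map_sub, map_mul, map_pow, Complex.conj_ofNat]
      linear_combination z ^ 2 * h1)
  have e1 : x + y + z = 2 * c + conj (c ^ 2 - 4 * u * v) * (x * y * z) := by
    apply mul_right_cancel₀ (mul_ne_zero (mul_ne_zero hx0 hy0) hz0)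
    linear_combination - r1
  exact ⟨e1, by linear_combination (-1 : ℂ) * r2⟩

theorem teq_of_fam {c u v x y z : ℂ} (hz : z ≠ 0)
    (hf : Fam (2 * c) (c ^ 2 - 4 * u * v) x y z)
    (hh : 2 * c * conj c - 4 * (u * conj u + v * conj v) = 4 * c * conj c - 1 -
      (c ^ 2 - 4 * u * v) * conj (c ^ 2 - 4 * u * v)) :
    TEq c u v (x * y) (x + y) := by
  obtain ⟨h1, h2⟩ := hf
  unfold TEq
  apply mul_left_cancel₀ (pow_ne_zero 2 hz)
  simp only [map_sub, map_mul, map_pow, Complex.conj_ofNat] at h1 h2 hh ⊢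
  linear_combination (-z ^ 3 + z ^ 2 * (x + y + z) - z * (x * y * z) * (2 * conj c)) * h1 +
    (-z ^ 2 + z * (x * y * z) * (conj c ^ 2 - 4 * conj u * conj v)) * h2 + z * (x * y * z) * hh


/-! ### Circles through the three points -/

theorem circle_alg {W u v r x y z : ℂ} (hx : x * conj x = 1) (hy : y * conj y = 1)
    (hz : z * conj z = 1) (hxy : x ≠ y) (hyz : y ≠ z) (hxz : x ≠ z)
    (h1 : (W + u * x + v * conj x) * conj (W + u * x + v * conj x) = r)
    (h2 : (W + u * y + v * conj y) * conj (W + u * y + v * conj y) = r)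
    (h3 : (W + u * z + v * conj z) * conj (W + u * z + v * conj z) = r) :
    conj W * u + W * conj v = -(u * conj v) * (x + y + z) - conj u * v * conj (x * y * z) ∧
    W * conj W - r = -(u * conj u + v * conj v) + u * conj v * (x * y + y * z + z * x) +
      conj u * v * conj (x * y * z) * (x + y + z) := by
  have key : ∀ t : ℂ, t * conj t = 1 →
      (W + u * t + v * conj t) * conj (W + u * t + v * conj t) = r →
      (u * conj v) * t ^ 4 + (conj W * u + W * conj v) * t ^ 3 +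
        (W * conj W + u * conj u + v * conj v - r) * t ^ 2 + (W * conj u + conj W * v) * t +
        conj u * v = 0 := by
    intro t ht e
    simp only [map_add, map_mul, Complex.conj_conj] at e
    linear_combination t ^ 2 * e + (-(W * conj u * t) - v * conj W * t - u * conj u * t ^ 2 -
      v * conj v * t ^ 2 - v * conj u * (1 + t * conj t)) * ht
  obtain ⟨r1, r2⟩ := quartic hxy hyz hxz (key x hx h1) (key y hy h2) (key z hz h3)
  have hl : (x * y * z) * conj (x * y * z) = 1 := by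
    simp only [map_mul]
    linear_combination (y * conj y * (z * conj z)) * hx + (z * conj z) * hy + hz
  have e1 : conj W * u + W * conj v =
      -(u * conj v) * (x + y + z) - conj u * v * conj (x * y * z) := by
    linear_combination (-(conj W * u + W * conj v + u * conj v * (x + y + z))) * hl +
      conj (x * y * z) * r1
  exact ⟨e1, by linear_combination r2 + (x + y + z) * (-1) * e1⟩

theorem conj_power {P O : ℂ} {r : ℝ} :
    ((power P O r : ℝ) : ℂ) = (P - O) * conj (P - O) - r ^ 2 := by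
  unfold power
  rw [dist_eq_norm, Complex.mul_conj, Complex.normSq_eq_norm_sq]
  push_cast
  ring

theorem mul_conj_of_dist {X O : ℂ} {r : ℝ} (h : dist X O = r) :
    (X - O) * conj (X - O) = (r : ℂ) ^ 2 := by
  rw [Complex.mul_conj, Complex.normSq_eq_norm_sq, ← dist_eq_norm, h]
  push_cast
  ring

/-- The constant value of the power of the point `c + u π + v π̄`. -/
noncomputable def K1 (u v s q π : ℂ) : ℂ :=
  -(u * conj u + v * conj v) + u * conj v * q + conj (u * conj v * q) -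
    u * conj v * s * π - conj (u * conj v * s * π) + (u * conj u + v * conj v) * (π * conj π) +
    u * conj v * π ^ 2 + conj (u * conj v * π ^ 2)

theorem circum_power {c u v O s q x y z π : ℂ} {r : ℝ} (hx : x * conj x = 1)
    (hy : y * conj y = 1) (hz : z * conj z = 1) (hxy : x ≠ y) (hyz : y ≠ z) (hxz : x ≠ z)
    (hf : Fam s q x y z)
    (h1 : dist (c + u * x + v * conj x) O = r) (h2 : dist (c + u * y + v * conj y) O = r)
    (h3 : dist (c + u * z + v * conj z) O = r) (hπ : π + q * conj π = s) :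
    ((power (c + u * π + v * conj π) O r : ℝ) : ℂ) = K1 u v s q π := by
  have g1 := mul_conj_of_dist h1
  have g2 := mul_conj_of_dist h2
  have g3 := mul_conj_of_dist h3
  have ee : ∀ t : ℂ, c + u * t + v * conj t - O = (c - O) + u * t + v * conj t := fun t => by ring
  rw [ee] at g1 g2 g3
  obtain ⟨a1, a2⟩ := circle_alg hx hy hz hxy hyz hxz g1 g2 g3
  obtain ⟨f1, f2⟩ := hf
  have hl : (x * y * z) * conj (x * y * z) = 1 := by
    simp only [map_mul]
    linear_combination (y * conj y * (z * conj z)) * hx + (z * conj z) * hy + hz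
  obtain ⟨l, hl'⟩ : ∃ l : ℂ, l = x * y * z := ⟨_, rfl⟩
  obtain ⟨S, hS⟩ : ∃ S : ℂ, S = x + y + z := ⟨_, rfl⟩
  obtain ⟨T, hT⟩ : ∃ T : ℂ, T = x * y + y * z + z * x := ⟨_, rfl⟩
  rw [← hl'] at a1 a2 f1 f2 hl
  rw [← hS] at a1 a2 f1
  rw [← hT] at a2 f2
  have a3 := congrArg conj a1
  have f3 := congrArg conj f1
  have hπ' := congrArg conj hπ
  simp only [map_add, map_mul, map_sub, map_neg, Complex.conj_conj] at a1 a2 a3 f3 hπ'
  rw [conj_power, ee]
  unfold K1
  simp only [map_add, map_mul, map_sub, map_pow, Complex.conj_conj]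
  subst f1 f2
  rw [f3] at a3
  linear_combination a2 + π * a1 + conj π * a3 +
    (u * conj v * l) * (-1 : ℂ) * hπ' + (-1 : ℂ) * (conj u * v * conj l) * hπ +
    (conj u * v * conj q) * hl

theorem norm_q_lt {c u v : ℂ} (hlt : ‖v‖ < ‖u‖)
    (hin : ∀ ζ : ℂ, ‖ζ‖ = 1 → ‖c + u * ζ + v * conj ζ‖ < 1) : ‖c ^ 2 - 4 * u * v‖ < 1 := by
  have hu : u ≠ 0 := by
    rintro rfl
    simp at hlt
    exact absurd hlt (not_lt.2 (norm_nonneg v))
  have hun : 0 < ‖u‖ := norm_pos_iff.2 hu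
  obtain ⟨e, he1, he2⟩ : ∃ e : ℂ, ‖e‖ = 1 ∧ u * v = (‖u‖ * ‖v‖ : ℝ) * e ^ 2 := by
    by_cases h0 : u * v = 0
    · refine ⟨1, by simp, ?_⟩
      rw [h0]
      have : ‖u‖ * ‖v‖ = 0 := by rw [← norm_mul, h0, norm_zero]
      rw [this]; simp
    · have hn : 0 < ‖u * v‖ := norm_pos_iff.2 h0
      have hnc : ((‖u * v‖ : ℝ) : ℂ) ≠ 0 := by exact_mod_cast hn.ne'
      obtain ⟨e, he⟩ := exists_sq (u * v / (‖u * v‖ : ℝ))
      refine ⟨e, ?_, ?_⟩
      · have h1 : ‖e‖ ^ 2 = 1 := by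
          rw [← norm_pow, he, norm_div, Complex.norm_real, norm_norm]
          exact div_self hn.ne'
        have := norm_nonneg e
        nlinarith
      · rw [he, ← norm_mul]
        field_simp
  have hee := mul_conj_of_norm he1
  obtain ⟨ζ, hζ⟩ : ∃ ζ : ℂ, ζ = e * (‖u‖ : ℝ) / u := ⟨_, rfl⟩
  have hζ1 : ‖ζ‖ = 1 := by
    rw [hζ, norm_div, norm_mul, he1, one_mul, Complex.norm_real, norm_norm]
    exact div_self hun.ne'
  have huz : u * ζ = (‖u‖ : ℝ) * e := by rw [hζ]; field_simp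
  have hζζ := mul_conj_of_norm hζ1
  have hvz : v * conj ζ = (‖v‖ : ℝ) * e := by
    have h1 : u * ζ * (v * conj ζ) = u * v := by linear_combination (u * v) * hζζ
    rw [huz, he2] at h1
    have h2 : ((‖u‖ : ℝ) : ℂ) * e ≠ 0 := by
      apply mul_ne_zero
      · exact_mod_cast hun.ne'
      · rintro rfl; simp at he1
    apply mul_left_cancel₀ h2
    rw [h1]; push_cast; ring
  have p1 := hin ζ hζ1
  have p2 := hin (-ζ) (by rw [norm_neg, hζ1])
  obtain ⟨R, hR⟩ : ∃ R : ℝ, R = ‖u‖ + ‖v‖ := ⟨_, rfl⟩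
  have q1 : c + u * ζ + v * conj ζ = c + R * e := by
    rw [hR]; push_cast; linear_combination huz + hvz
  have q2 : c + u * (-ζ) + v * conj (-ζ) = c - R * e := by
    rw [hR, map_neg]; push_cast; linear_combination -huz - hvz
  rw [q1] at p1
  rw [q2] at p2
  obtain ⟨t, ht⟩ : ∃ t : ℝ, t = 2 * Real.sqrt (‖u‖ * ‖v‖) := ⟨_, rfl⟩
  have hv0 := norm_nonneg v
  have hs := Real.sq_sqrt (mul_nonneg hun.le hv0)
  have hs0 := Real.sqrt_nonneg (‖u‖ * ‖v‖)
  have ht0 : 0 ≤ t := by rw [ht]; positivity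
  have ht2 : t ^ 2 = 4 * (‖u‖ * ‖v‖) := by rw [ht, mul_pow, hs]; ring
  have hRpos : 0 < R := by rw [hR]; linarith
  have htR : t ≤ R := by
    have : t ^ 2 ≤ R ^ 2 := by rw [ht2, hR]; nlinarith [sq_nonneg (‖u‖ - ‖v‖)]
    exact (pow_le_pow_iff_left₀ ht0 hRpos.le two_ne_zero).1 this
  obtain ⟨w, hw⟩ : ∃ w : ℝ, w = t / R := ⟨_, rfl⟩
  have hw0 : 0 ≤ w := by rw [hw]; positivity
  have hw1 : w ≤ 1 := by rw [hw]; exact (div_le_one hRpos).2 htR
  have hwR : w * R = t := by rw [hw]; field_simp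
  have b1 : ‖c + t * e‖ < 1 := by
    have e1 : c + t * e = (((1 + w) / 2 : ℝ) : ℂ) * (c + R * e) +
        (((1 - w) / 2 : ℝ) : ℂ) * (c - R * e) := by
      rw [← hwR]; push_cast; ring
    rw [e1]
    refine (norm_add_le _ _).trans_lt ?_
    rw [norm_mul, norm_mul, Complex.norm_real, Complex.norm_real, Real.norm_eq_abs,
      Real.norm_eq_abs, abs_of_nonneg (by linarith : 0 ≤ (1 + w) / 2),
      abs_of_nonneg (by linarith : 0 ≤ (1 - w) / 2)]
    nlinarith
  have b2 : ‖c - t * e‖ < 1 := by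
    have e1 : c - t * e = (((1 - w) / 2 : ℝ) : ℂ) * (c + R * e) +
        (((1 + w) / 2 : ℝ) : ℂ) * (c - R * e) := by
      rw [← hwR]; push_cast; ring
    rw [e1]
    refine (norm_add_le _ _).trans_lt ?_
    rw [norm_mul, norm_mul, Complex.norm_real, Complex.norm_real, Real.norm_eq_abs,
      Real.norm_eq_abs, abs_of_nonneg (by linarith : 0 ≤ (1 + w) / 2),
      abs_of_nonneg (by linarith : 0 ≤ (1 - w) / 2)]
    nlinarith
  have e5 : c ^ 2 - 4 * u * v = (c + t * e) * (c - t * e) := by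
    have : (t : ℂ) ^ 2 = 4 * (‖u‖ * ‖v‖ : ℝ) := by
      rw [← Complex.ofReal_pow, ht2]; push_cast; ring
    linear_combination (-4 : ℂ) * he2 + e ^ 2 * this
  rw [e5, norm_mul]
  have h6 := norm_nonneg (c + t * e)
  have h7 := norm_nonneg (c - t * e)
  nlinarith

theorem exists_pole {s q : ℂ} (h : ‖q‖ < 1) : ∃ π : ℂ, π + q * conj π = s := by
  have h0 : (1 : ℂ) - q * conj q ≠ 0 := by
    rw [Complex.mul_conj, Complex.normSq_eq_norm_sq]
    intro h1
    have h2 : (1 : ℝ) - ‖q‖ ^ 2 = 0 := by exact_mod_cast h1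
    have := norm_nonneg q
    nlinarith
  have h0' : (1 : ℂ) - conj q * q ≠ 0 := by rwa [mul_comm (conj q) q]
  refine ⟨(s - q * conj s) / (1 - q * conj q), ?_⟩
  simp only [map_div₀, map_sub, map_mul, map_one, Complex.conj_conj]
  field_simp
  ring

/-- What a 3-periodic looks like in the coordinates of the outer ellipse. -/
theorem periodic_data {E F : Ellipse} {c u v c' u' v' c₁ u₁ v₁ A B C : ℂ} (hE : Param E c u v)
    (hF : Param F c' u' v') (hr : Rel2 c u v c' u' v' c₁ u₁ v₁) (h : IsPeriodic E F A B C) :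
    ∃ x y z : ℂ, x * conj x = 1 ∧ y * conj y = 1 ∧ z * conj z = 1 ∧ x ≠ y ∧ y ≠ z ∧ x ≠ z ∧
      Fam (2 * c₁) (c₁ ^ 2 - 4 * u₁ * v₁) x y z ∧ A = c + u * x + v * conj x ∧
      B = c + u * y + v * conj y ∧ C = c + u * z + v * conj z := by
  obtain ⟨x, rfl⟩ := surj hE.lt c A
  obtain ⟨y, rfl⟩ := surj hE.lt c B
  obtain ⟨z, rfl⟩ := surj hE.lt c C
  have hx := mul_conj_of_norm ((hE.mem_curve x).1 h.memA)
  have hy := mul_conj_of_norm ((hE.mem_curve y).1 h.memB)
  have hz := mul_conj_of_norm ((hE.mem_curve z).1 h.memC)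
  have hxy : x ≠ y := by
    rintro rfl
    apply h.tri
    simpa using collinear_pair ℝ (c + u * x + v * conj x) (c + u * z + v * conj z)
  have hyz : y ≠ z := by
    rintro rfl
    apply h.tri
    simpa using collinear_pair ℝ (c + u * x + v * conj x) (c + u * y + v * conj y)
  have hxz : x ≠ z := by
    rintro rfl
    apply h.tri
    have := collinear_pair ℝ (c + u * x + v * conj x) (c + u * y + v * conj y)
    rw [Set.insert_comm, Set.pair_eq_singleton, Set.pair_comm]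
    exact this
  refine ⟨x, y, z, hx, hy, hz, hxy, hyz, hxz, ?_, rfl, rfl, rfl⟩
  apply fam_of_teq hx hy hz hxy hyz hxz
  · exact (tangent_iff hE.lt hF hr hx hy hxy).1 h.tanAB
  · exact (tangent_iff hE.lt hF hr hy hz hyz).1 h.tanBC
  · exact (tangent_iff hE.lt hF hr hz hx hxz.symm).1 h.tanCA

theorem circum_main (E F : Ellipse) (hin : F.curve ⊆ E.inside) :
    ∃ (P : ℂ) (k : ℝ), ∀ A B C : ℂ, IsPeriodic E F A B C →
      ∀ (O : ℂ) (r : ℝ), CircleThrough A B C O r → power P O r = k := by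
  obtain ⟨c, u, v, hE⟩ := E.exists_param
  obtain ⟨c', u', v', hF⟩ := F.exists_param
  obtain ⟨c₁, u₁, v₁, hr⟩ := exists_rel2 c u v c' u' v' hE.lt hF.lt
  have hq : ‖c₁ ^ 2 - 4 * u₁ * v₁‖ < 1 := by
    apply norm_q_lt hr.lt
    intro ζ hζ
    have h1 := hin ((hF.mem_curve ζ).2 hζ)
    rw [hr.eval, hE.mem_inside] at h1
    exact h1
  obtain ⟨π, hπ⟩ := exists_pole (s := 2 * c₁) hq
  refine ⟨c + u * π + v * conj π, (K1 u v (2 * c₁) (c₁ ^ 2 - 4 * u₁ * v₁) π).re, ?_⟩
  intro A B C hp O r hO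
  obtain ⟨x, y, z, hx, hy, hz, hxy, hyz, hxz, hf, rfl, rfl, rfl⟩ := periodic_data hE hF hr hp
  have := circum_power hx hy hz hxy hyz hxz hf hO.2.1 hO.2.2.1 hO.2.2.2 hπ
  rw [← this, Complex.ofReal_re]


/-! ### The Euler circle -/

/-- The part of four times the power that does not depend on the triangle. -/
noncomputable def K2 (u v s q π : ℂ) : ℂ :=
  -(u * conj u + v * conj v) - u * conj v * s * (s - 2 * π) - conj (u * conj v * s * (s - 2 * π)) +
    (u * conj u + v * conj v) * ((s - 2 * π) * conj (s - 2 * π) + q * conj q) +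
    u * conj v * (s - 2 * π) ^ 2 + conj (u * conj v * (s - 2 * π) ^ 2)

/-- The coefficient of `λ = xyz`. -/
noncomputable def κ (u v s q π : ℂ) : ℂ :=
  u * conj v * (conj s - s * conj q) + u * conj v * conj q * (s - 2 * π) +
    ((u * conj u + v * conj v) * conj q - u * conj v) * conj (s - 2 * π)

theorem midpoint_eq {c u v x y z : ℂ} :
    midpoint ℝ (c + u * x + v * conj x) (c + u * y + v * conj y) =
      (c + (u * (x + y + z) + v * conj (x + y + z)) / 2) + (-u / 2) * z + (-v / 2) * conj z := by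
  rw [midpoint_eq_smul_add, Complex.real_smul, invOf_eq_inv]
  simp only [map_add]
  push_cast
  ring

theorem euler_power {c u v O s q x y z : ℂ} {r : ℝ} (hx : x * conj x = 1)
    (hy : y * conj y = 1) (hz : z * conj z = 1) (hxy : x ≠ y) (hyz : y ≠ z) (hxz : x ≠ z)
    (hf : Fam s q x y z)
    (h : EulerCircle (c + u * x + v * conj x) (c + u * y + v * conj y) (c + u * z + v * conj z) O r)
    (π : ℂ) :
    4 * ((power (c + u * π + v * conj π) O r : ℝ) : ℂ) =
      K2 u v s q π + κ u v s q π * (x * y * z) + conj (κ u v s q π * (x * y * z)) := by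
  obtain ⟨_, h3, h1, h2⟩ := h
  rw [midpoint_eq (z := z)] at h3
  rw [midpoint_eq (z := x)] at h1
  rw [midpoint_eq (z := y)] at h2
  have g1 := mul_conj_of_dist h1
  have g2 := mul_conj_of_dist h2
  have g3 := mul_conj_of_dist h3
  obtain ⟨W, hW⟩ : ∃ W : ℂ, W = c + (u * (x + y + z) + v * conj (x + y + z)) / 2 - O := ⟨_, rfl⟩
  have ee : ∀ t : ℂ, (c + (u * (x + y + z) + v * conj (x + y + z)) / 2) + (-u / 2) * t +
      (-v / 2) * conj t - O = W + (-u / 2) * t + (-v / 2) * conj t := fun t => by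
    rw [hW]; ring
  rw [show y + z + x = x + y + z by ring, ee] at g1
  rw [show z + x + y = x + y + z by ring, ee] at g2
  rw [ee] at g3
  obtain ⟨a1, a2⟩ := circle_alg hx hy hz hxy hyz hxz g1 g2 g3
  obtain ⟨f1, f2⟩ := hf
  have hl : (x * y * z) * conj (x * y * z) = 1 := by
    simp only [map_mul]
    linear_combination (y * conj y * (z * conj z)) * hx + (z * conj z) * hy + hz
  have eP : c + u * π + v * conj π - O = W + (-u / 2) * ((x + y + z) - 2 * π) +
      (-v / 2) * conj ((x + y + z) - 2 * π) := by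
    rw [hW, map_sub, map_mul, Complex.conj_ofNat]; ring
  rw [conj_power, eP]
  obtain ⟨l, hl'⟩ : ∃ l : ℂ, l = x * y * z := ⟨_, rfl⟩
  obtain ⟨S, hS⟩ : ∃ S : ℂ, S = x + y + z := ⟨_, rfl⟩
  obtain ⟨T, hT⟩ : ∃ T : ℂ, T = x * y + y * z + z * x := ⟨_, rfl⟩
  rw [← hl'] at a1 a2 f1 f2 hl
  rw [← hS] at a1 a2 f1
  rw [← hT] at a2 f2
  rw [← hl', ← hS]
  have a3 := congrArg conj a1
  have f3 := congrArg conj f1
  simp only [map_add, map_mul, map_sub, map_neg, map_div₀, Complex.conj_ofNat,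
    Complex.conj_conj] at a1 a2 a3 f3
  unfold K2 κ
  simp only [map_add, map_mul, map_sub, map_neg, map_pow, map_div₀, Complex.conj_ofNat,
    Complex.conj_conj]
  rw [f3] at a3 ⊢
  subst f1 f2
  linear_combination 4 * a2 + 4 * (s + conj q * l - 2 * π) * a1 +
    4 * (conj s + q * conj l - 2 * conj π) * a3 +
    (u * conj u * q * conj q + v * conj v * q * conj q - u * conj v * q) * hl


theorem surj' {a b : ℂ} (h : a * conj a - b * conj b ≠ 0) (w : ℂ) :
    ∃ z, a * z + b * conj z = w := by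
  have h0 : conj a * a - conj b * b ≠ 0 := by
    intro h1; apply h; linear_combination h1
  refine ⟨(conj a * w - b * conj w) / (a * conj a - b * conj b), ?_⟩
  simp only [map_div₀, map_sub, map_mul, Complex.conj_conj]
  field_simp
  ring

theorem exists_kernel {a b : ℂ} (h : a * conj a - b * conj b = 0) :
    ∃ z : ℂ, z ≠ 0 ∧ a * z + b * conj z = 0 := by
  by_cases h1 : conj a - b = 0
  · by_cases h2 : conj a + b = 0
    · refine ⟨1, one_ne_zero, ?_⟩
      have ha : conj a = 0 := by linear_combination (1 / 2 : ℂ) * h1 + (1 / 2 : ℂ) * h2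
      have hb : b = 0 := by linear_combination (1 / 2 : ℂ) * h2 - (1 / 2 : ℂ) * h1
      have ha' : a = 0 := by simpa using ha
      rw [ha', hb]; simp
    · refine ⟨Complex.I * (conj a + b), mul_ne_zero Complex.I_ne_zero h2, ?_⟩
      simp only [map_mul, map_add, Complex.conj_I, Complex.conj_conj]
      linear_combination Complex.I * h
  · refine ⟨conj a - b, h1, ?_⟩
    simp only [map_sub, Complex.conj_conj]
    linear_combination h

theorem real_multiple {w d : ℂ} (hw : w ≠ 0) (h : (w * conj d).re = 0) :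
    ∃ r : ℝ, d = r * (Complex.I * w) := by
  have hw' : w * conj w ≠ 0 := mul_ne_zero hw (by simpa using hw)
  have h1 : conj w * d + w * conj d = 0 := by
    have : conj w * d = conj (w * conj d) := by simp
    rw [this, add_comm, Complex.add_conj, h]; simp
  obtain ⟨t, ht⟩ : ∃ t : ℂ, t = d / (Complex.I * w) := ⟨_, rfl⟩
  have hI : Complex.I * w ≠ 0 := mul_ne_zero Complex.I_ne_zero hw
  have ht1 : d = t * (Complex.I * w) := by rw [ht]; field_simp
  have ht2 : conj t = t := by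
    have h2 : conj d = conj t * (-Complex.I * conj w) := by
      rw [ht1]
      simp only [map_mul, Complex.conj_I]
    rw [h2, ht1] at h1
    have h3 : (Complex.I * (w * conj w)) * (conj t) = (Complex.I * (w * conj w)) * t := by
      linear_combination -h1
    exact mul_left_cancel₀ (mul_ne_zero Complex.I_ne_zero hw') h3
  obtain ⟨r, hr⟩ := Complex.conj_eq_iff_real.1 ht2
  exact ⟨r, by rw [← hr]; exact ht1⟩

theorem collinear_of_re {w O₁ O₂ O₃ : ℂ} (hw : w ≠ 0) (h2 : (w * conj (O₂ - O₁)).re = 0)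
    (h3 : (w * conj (O₃ - O₁)).re = 0) : Collinear ℝ {O₁, O₂, O₃} := by
  rw [collinear_iff_of_mem (p₀ := O₁) (by simp)]
  obtain ⟨r2, e2⟩ := real_multiple hw h2
  obtain ⟨r3, e3⟩ := real_multiple hw h3
  refine ⟨Complex.I * w, ?_⟩
  intro p hp
  simp only [Set.mem_insert_iff, Set.mem_singleton_iff] at hp
  rcases hp with rfl | rfl | rfl
  · exact ⟨0, by simp⟩
  · refine ⟨r2, ?_⟩
    rw [vadd_eq_add, Complex.real_smul]
    linear_combination e2
  · refine ⟨r3, ?_⟩
    rw [vadd_eq_add, Complex.real_smul]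
    linear_combination e3

theorem power_sub {P P' O O' : ℂ} {r r' : ℝ} :
    power P O r - power P' O r - (power P O' r' - power P' O' r') =
      -2 * ((P - P') * conj (O - O')).re := by
  have h : (((power P O r - power P' O r - (power P O' r' - power P' O' r') : ℝ)) : ℂ) =
      ((-2 * ((P - P') * conj (O - O')).re : ℝ) : ℂ) := by
    have e := Complex.add_conj ((P - P') * conj (O - O'))
    push_cast at e ⊢
    rw [conj_power, conj_power, conj_power, conj_power]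
    simp only [map_sub, map_mul, Complex.conj_conj] at e ⊢
    linear_combination -e
  exact_mod_cast h

theorem euler_main (E F : Ellipse)
    (hne : ∃ A₁ B₁ C₁ A₂ B₂ C₂ A₃ B₃ C₃ O₁ O₂ O₃ : ℂ, ∃ r₁ r₂ r₃ : ℝ,
      IsPeriodic E F A₁ B₁ C₁ ∧ IsPeriodic E F A₂ B₂ C₂ ∧ IsPeriodic E F A₃ B₃ C₃ ∧
      EulerCircle A₁ B₁ C₁ O₁ r₁ ∧ EulerCircle A₂ B₂ C₂ O₂ r₂ ∧ EulerCircle A₃ B₃ C₃ O₃ r₃ ∧
      ¬ Collinear ℝ {O₁, O₂, O₃}) :
    ∃! P : ℂ, ∃ k : ℝ, ∀ A B C : ℂ, IsPeriodic E F A B C →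
      ∀ (O : ℂ) (r : ℝ), EulerCircle A B C O r → power P O r = k := by
  obtain ⟨A₁, B₁, C₁, A₂, B₂, C₂, A₃, B₃, C₃, O₁, O₂, O₃, r₁, r₂, r₃, p₁, p₂, p₃, c₁', c₂', c₃',
    hnc⟩ := hne
  obtain ⟨c, u, v, hE⟩ := E.exists_param
  obtain ⟨c', u', v', hF⟩ := F.exists_param
  obtain ⟨c₁, u₁, v₁, hr⟩ := exists_rel2 c u v c' u' v' hE.lt hF.lt
  obtain ⟨s, hs⟩ : ∃ s : ℂ, s = 2 * c₁ := ⟨_, rfl⟩
  obtain ⟨q, hq⟩ : ∃ q : ℂ, q = c₁ ^ 2 - 4 * u₁ * v₁ := ⟨_, rfl⟩
  have form : ∀ A B C : ℂ, IsPeriodic E F A B C → ∃ l : ℂ, ∀ (O : ℂ) (r : ℝ),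
      EulerCircle A B C O r → ∀ π : ℂ, 4 * ((power (c + u * π + v * conj π) O r : ℝ) : ℂ) =
        K2 u v s q π + κ u v s q π * l + conj (κ u v s q π * l) := by
    intro A B C hp
    obtain ⟨x, y, z, hx, hy, hz, hxy, hyz, hxz, hf, rfl, rfl, rfl⟩ := periodic_data hE hF hr hp
    rw [← hs, ← hq] at hf
    exact ⟨x * y * z, fun O r hO π => euler_power hx hy hz hxy hyz hxz hf hO π⟩
  -- uniqueness
  have uniq : ∀ P P' : ℂ, ∀ k k' : ℝ,
      (∀ A B C : ℂ, IsPeriodic E F A B C → ∀ (O : ℂ) (r : ℝ), EulerCircle A B C O r →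
        power P O r = k) →
      (∀ A B C : ℂ, IsPeriodic E F A B C → ∀ (O : ℂ) (r : ℝ), EulerCircle A B C O r →
        power P' O r = k') → P = P' := by
    intro P P' k k' hP hP'
    by_contra hcon
    apply hnc
    have d : ∀ O O' r r', power P O r - power P' O r - (power P O' r' - power P' O' r') = 0 →
        ((P - P') * conj (O - O')).re = 0 := by
      intro O O' r r' h0
      rw [power_sub] at h0
      linarith
    apply collinear_of_re (sub_ne_zero.2 hcon)
    · apply d O₂ O₁ r₂ r₁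
      rw [hP _ _ _ p₁ _ _ c₁', hP _ _ _ p₂ _ _ c₂', hP' _ _ _ p₁ _ _ c₁', hP' _ _ _ p₂ _ _ c₂']
      ring
    · apply d O₃ O₁ r₃ r₁
      rw [hP _ _ _ p₁ _ _ c₁', hP _ _ _ p₃ _ _ c₃', hP' _ _ _ p₁ _ _ c₁', hP' _ _ _ p₃ _ _ c₃']
      ring
  -- nondegeneracy
  obtain ⟨a, ha⟩ : ∃ a : ℂ, a = u * conj v * conj q := ⟨_, rfl⟩
  obtain ⟨b, hb⟩ : ∃ b : ℂ, b = (u * conj u + v * conj v) * conj q - u * conj v := ⟨_, rfl⟩
  have hκ : ∀ π, κ u v s q π = u * conj v * (conj s - s * conj q) + a * (s - 2 * π) +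
      b * conj (s - 2 * π) := by
    intro π; rw [ha, hb]; unfold κ; ring
  have hD : a * conj a - b * conj b ≠ 0 := by
    intro h0
    obtain ⟨π, hπ0, hπ⟩ := exists_kernel h0
    have hw : u * π + v * conj π ≠ 0 := by
      intro h1
      apply hπ0
      apply inj hE.lt
      simpa using h1
    apply hnc
    have hk0 : κ u v s q π = κ u v s q 0 := by
      rw [hκ, hκ]
      simp only [map_sub, map_mul, Complex.conj_ofNat, mul_zero, sub_zero]
      linear_combination (-2 : ℂ) * hπ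
    have d : ∀ A B C O r A' B' C' O' r', IsPeriodic E F A B C → IsPeriodic E F A' B' C' →
        EulerCircle A B C O r → EulerCircle A' B' C' O' r' →
        ((u * π + v * conj π) * conj (O - O')).re = 0 := by
      intro A B C O r A' B' C' O' r' hp hp' he he'
      obtain ⟨l, hl⟩ := form A B C hp
      obtain ⟨l', hl'⟩ := form A' B' C' hp'
      have e1 := hl O r he π
      have e2 := hl O r he 0
      have e3 := hl' O' r' he' π
      have e4 := hl' O' r' he' 0
      have e5 := power_sub (P := c + u * π + v * conj π) (P' := c + u * 0 + v * conj 0) (O := O)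
        (O' := O') (r := r) (r' := r')
      have e6 : power (c + u * π + v * conj π) O r - power (c + u * 0 + v * conj 0) O r -
        (power (c + u * π + v * conj π) O' r' - power (c + u * 0 + v * conj 0) O' r') = 0 := by
        have : (((power (c + u * π + v * conj π) O r - power (c + u * 0 + v * conj 0) O r -
          (power (c + u * π + v * conj π) O' r' - power (c + u * 0 + v * conj 0) O' r') : ℝ)) : ℂ) =
            ((0 : ℝ) : ℂ) := by
          push_cast
          rw [hk0] at e1 e3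
          linear_combination (1 / 4 : ℂ) * (e1 - e2 - e3 + e4)
        exact_mod_cast this
      rw [e6] at e5
      have e7 : c + u * π + v * conj π - (c + u * 0 + v * conj 0) = u * π + v * conj π := by
        rw [map_zero]; ring
      rw [e7] at e5
      linarith
    apply collinear_of_re hw
    · exact d _ _ _ _ _ _ _ _ _ _ p₂ p₁ c₂' c₁'
    · exact d _ _ _ _ _ _ _ _ _ _ p₃ p₁ c₃' c₁'
  obtain ⟨y0, hy0⟩ := surj' hD (-(u * conj v * (conj s - s * conj q)))
  have hsol : κ u v s q ((s - y0) / 2) = 0 := by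
    rw [hκ]
    have : s - 2 * ((s - y0) / 2) = y0 := by ring
    rw [this]
    linear_combination hy0
  obtain ⟨P, hP⟩ : ∃ P : ℂ, P = c + u * ((s - y0) / 2) + v * conj ((s - y0) / 2) := ⟨_, rfl⟩
  have hPk : ∀ A B C : ℂ, IsPeriodic E F A B C →
      ∀ (O : ℂ) (r : ℝ), EulerCircle A B C O r → power P O r =
        (K2 u v s q ((s - y0) / 2)).re / 4 := by
    intro A B C hp O r hO
    obtain ⟨l, hl⟩ := form A B C hp
    have e1 := hl O r hO ((s - y0) / 2)
    rw [hsol, ← hP] at e1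
    have e2 := congrArg Complex.re e1
    simp at e2
    linarith
  refine ⟨P, ⟨_, hPk⟩, ?_⟩
  rintro P' ⟨k', hP'⟩
  exact uniq P' P k' _ hP' hPk


/-! ### Existence of 3-periodics -/

theorem not_collinear {W u v x y z : ℂ} (h : ‖v‖ < ‖u‖) (hx : x * conj x = 1)
    (hy : y * conj y = 1) (hz : z * conj z = 1) (hxy : x ≠ y) (hyz : y ≠ z) (hxz : x ≠ z) :
    ¬ Collinear ℝ {W + u * x + v * conj x, W + u * y + v * conj y, W + u * z + v * conj z} := by
  intro hc
  rw [collinear_iff_of_mem (p₀ := W + u * x + v * conj x) (by simp)] at hc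
  obtain ⟨v0, hv0⟩ := hc
  obtain ⟨r1, e1⟩ := hv0 (W + u * y + v * conj y) (by simp)
  obtain ⟨r2, e2⟩ := hv0 (W + u * z + v * conj z) (by simp)
  rw [vadd_eq_add, Complex.real_smul] at e1 e2
  have e3 : (r2 : ℂ) * (y - x) = r1 * (z - x) := by
    apply inj h
    simp only [map_mul, map_sub, Complex.conj_ofReal]
    linear_combination (r2 : ℂ) * e1 - (r1 : ℂ) * e2
  have e4 : (r2 : ℂ) * (conj y - conj x) = r1 * (conj z - conj x) := by
    have := congrArg conj e3
    simpa using this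
  have e5 : (r1 : ℂ) * ((z - x) * (z - y)) = 0 := by
    linear_combination (-(x * y * z)) * e4 - z * e3 + (r2 : ℂ) * x * z * hy -
      (r2 : ℂ) * y * z * hx - (r1 : ℂ) * x * y * hz + (r1 : ℂ) * y * z * hx
  have hr1 : (r1 : ℂ) = 0 := by
    rcases mul_eq_zero.1 e5 with h1 | h1
    · exact h1
    · rcases mul_eq_zero.1 h1 with h2 | h2
      · exact absurd (sub_eq_zero.1 h2).symm hxz
      · exact absurd (sub_eq_zero.1 h2).symm hyz
  rw [hr1] at e1
  apply hxy
  apply inj h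
  linear_combination -e1

theorem exists_circle {X Y Z : ℂ} (h : ¬ Collinear ℝ {X, Y, Z}) :
    ∃ (O : ℂ) (r : ℝ), CircleThrough X Y Z O r := by
  rw [← affineIndependent_iff_not_collinear_set] at h
  let T : Affine.Simplex ℝ ℂ 2 := ⟨![X, Y, Z], h⟩
  refine ⟨T.circumcenter, T.circumradius, T.circumradius_pos, ?_, ?_, ?_⟩
  · exact T.dist_circumcenter_eq_circumradius 0
  · exact T.dist_circumcenter_eq_circumradius 1
  · exact T.dist_circumcenter_eq_circumradius 2

theorem exists_euler {c u v x y z : ℂ} (h : ‖v‖ < ‖u‖) (hx : x * conj x = 1)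
    (hy : y * conj y = 1) (hz : z * conj z = 1) (hxy : x ≠ y) (hyz : y ≠ z) (hxz : x ≠ z) :
    ∃ (O : ℂ) (r : ℝ), EulerCircle (c + u * x + v * conj x) (c + u * y + v * conj y)
      (c + u * z + v * conj z) O r := by
  apply exists_circle
  rw [midpoint_eq (z := z), midpoint_eq (z := x), midpoint_eq (z := y),
    show y + z + x = x + y + z by ring, show z + x + y = x + y + z by ring]
  apply not_collinear _ hz hx hy hxz.symm hxy hyz.symm
  rw [norm_div, norm_div, norm_neg, norm_neg]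
  have : (0 : ℝ) < ‖(2 : ℂ)‖ := by simp
  gcongr

theorem Fam.rot {s q x y z : ℂ} (h : Fam s q x y z) : Fam s q y z x := by
  obtain ⟨h1, h2⟩ := h
  exact ⟨by linear_combination h1, by linear_combination h2⟩

theorem periodic_of_fam {E F : Ellipse} {c u v c' u' v' c₁ u₁ v₁ x y z : ℂ} (hE : Param E c u v)
    (hF : Param F c' u' v') (hr : Rel2 c u v c' u' v' c₁ u₁ v₁) (hx : x * conj x = 1)
    (hy : y * conj y = 1) (hz : z * conj z = 1) (hxy : x ≠ y) (hyz : y ≠ z) (hxz : x ≠ z)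
    (hf : Fam (2 * c₁) (c₁ ^ 2 - 4 * u₁ * v₁) x y z)
    (hh : 2 * c₁ * conj c₁ - 4 * (u₁ * conj u₁ + v₁ * conj v₁) = 4 * c₁ * conj c₁ - 1 -
      (c₁ ^ 2 - 4 * u₁ * v₁) * conj (c₁ ^ 2 - 4 * u₁ * v₁)) :
    IsPeriodic E F (c + u * x + v * conj x) (c + u * y + v * conj y) (c + u * z + v * conj z) := by
  have hx0 : x ≠ 0 := by rintro rfl; simp at hx
  have hy0 : y ≠ 0 := by rintro rfl; simp at hy
  have hz0 : z ≠ 0 := by rintro rfl; simp at hz
  refine ⟨not_collinear hE.lt hx hy hz hxy hyz hxz, ?_, ?_, ?_, ?_, ?_, ?_⟩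
  · exact (hE.mem_curve x).2 (norm_of_mul_conj hx)
  · exact (hE.mem_curve y).2 (norm_of_mul_conj hy)
  · exact (hE.mem_curve z).2 (norm_of_mul_conj hz)
  · exact (tangent_iff hE.lt hF hr hx hy hxy).2 (teq_of_fam hz0 hf hh)
  · exact (tangent_iff hE.lt hF hr hy hz hyz).2 (teq_of_fam hx0 hf.rot hh)
  · exact (tangent_iff hE.lt hF hr hz hx hxz.symm).2 (teq_of_fam hy0 hf.rot.rot hh)

/-- Completing a point of the unit circle to a triangle of the family. -/
theorem exists_triangle {s q x l : ℂ} (hx : x * conj x = 1) (hl : l * conj l = 1)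
    (hB : l * (1 - conj s * x + conj q * x ^ 2) = x ^ 3 - s * x ^ 2 + q * x)
    (hn0 : s + conj q * l - x ≠ 0)
    (hn : ((s + conj q * l - x) * conj (s + conj q * l - x)).re < 4)
    (hne : x ^ 3 - (s + conj q * l - x) * x ^ 2 + l ≠ 0) :
    ∃ y z : ℂ, y * conj y = 1 ∧ z * conj z = 1 ∧ x ≠ y ∧ y ≠ z ∧ x ≠ z ∧ Fam s q x y z ∧
      x * y * z = l := by
  obtain ⟨n, hn'⟩ : ∃ n : ℂ, n = s + conj q * l - x := ⟨_, rfl⟩
  rw [← hn'] at hn0 hn hne
  have hx0 : x ≠ 0 := by rintro rfl; simp at hx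
  obtain ⟨m, hm⟩ : ∃ m : ℂ, m = l * conj x := ⟨_, rfl⟩
  have hmx : m * x = l := by rw [hm]; linear_combination l * hx
  have hmm : m * conj m = 1 := by
    rw [hm]; simp only [map_mul, Complex.conj_conj]
    linear_combination (x * conj x) * hl + hx
  have hnm : n = m * conj n := by
    apply mul_left_cancel₀ (pow_ne_zero 2 hx0)
    rw [hm, hn']
    simp only [map_sub, map_add, map_mul, Complex.conj_conj]
    linear_combination hB - (l * conj s * x) * hx + (l * conj x * x + l) * hx -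
      (q * conj x * x ^ 2) * hl - (q * x) * hx
  have hnr : (n * conj n) = ((‖n‖ ^ 2 : ℝ) : ℂ) := by
    rw [Complex.mul_conj, Complex.normSq_eq_norm_sq]
  have hnlt : ‖n‖ ^ 2 < 4 := by
    rw [hnr, Complex.ofReal_re] at hn
    exact hn
  have hnpos : 0 < ‖n‖ ^ 2 := by have := norm_pos_iff.2 hn0; positivity
  obtain ⟨R, hR⟩ : ∃ R : ℝ, R = Real.sqrt (4 / ‖n‖ ^ 2 - 1) := ⟨_, rfl⟩
  have hRpos : 0 < 4 / ‖n‖ ^ 2 - 1 := by
    rw [sub_pos, lt_div_iff₀ hnpos]; linarith
  have hR2 : R ^ 2 = 4 / ‖n‖ ^ 2 - 1 := by rw [hR]; exact Real.sq_sqrt hRpos.le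
  have hR0 : R ≠ 0 := by
    intro h0
    rw [h0] at hR2
    linarith
  have hR3 : n * conj n * (1 + (R : ℂ) ^ 2) = 4 := by
    rw [hnr, ← Complex.ofReal_pow, hR2]
    push_cast
    have : ((‖n‖ : ℝ) : ℂ) ≠ 0 := by
      have := norm_pos_iff.2 hn0
      exact_mod_cast this.ne'
    field_simp
    ring
  have hI := Complex.I_sq
  have hnc : conj n ≠ 0 := by simpa using hn0
  have hyz : n / 2 * (1 + Complex.I * R) * (n / 2 * (1 - Complex.I * R)) = m := by
    apply mul_left_cancel₀ hnc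
    have : conj n * (n / 2 * (1 + Complex.I * R) * (n / 2 * (1 - Complex.I * R))) =
        n * (n * conj n * (1 + (R : ℂ) ^ 2)) / 4 := by
      linear_combination (-(conj n * n ^ 2 * R ^ 2) / 4) * hI
    rw [this, hR3]
    linear_combination hnm
  refine ⟨n / 2 * (1 + Complex.I * R), n / 2 * (1 - Complex.I * R), ?_, ?_, ?_, ?_, ?_, ?_, ?_⟩
  · simp only [map_mul, map_add, map_one, Complex.conj_I, Complex.conj_ofReal, map_div₀,
      Complex.conj_ofNat]
    linear_combination (1 / 4 : ℂ) * hR3 - (n * conj n * R ^ 2 / 4) * hI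
  · simp only [map_mul, map_sub, map_one, Complex.conj_I, Complex.conj_ofReal, map_div₀,
      Complex.conj_ofNat]
    linear_combination (1 / 4 : ℂ) * hR3 - (n * conj n * R ^ 2 / 4) * hI
  · intro h0
    apply hne
    have h1 : (x - n / 2 * (1 + Complex.I * R)) * (x - n / 2 * (1 - Complex.I * R)) = 0 := by
      rw [← h0]; ring
    linear_combination x * h1 - x * hyz - hmx
  · intro h0
    have h1 : n * (Complex.I * R) = 0 := by linear_combination h0
    rcases mul_eq_zero.1 h1 with h2 | h2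
    · exact hn0 h2
    · rcases mul_eq_zero.1 h2 with h3 | h3
      · exact Complex.I_ne_zero h3
      · exact hR0 (by exact_mod_cast h3)
  · intro h0
    apply hne
    have h1 : (x - n / 2 * (1 + Complex.I * R)) * (x - n / 2 * (1 - Complex.I * R)) = 0 := by
      rw [← h0]; ring
    linear_combination x * h1 - x * hyz - hmx
  · have hp : x * (n / 2 * (1 + Complex.I * R)) * (n / 2 * (1 - Complex.I * R)) = l := by
      linear_combination x * hyz + hmx
    refine ⟨?_, ?_⟩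
    · rw [hp]; linear_combination hn'
    · rw [hp]
      have h3 : conj n = conj s + q * conj l - conj x := by
        rw [hn']; simp
      have h4 : n = m * (conj s + q * conj l - conj x) := by rw [← h3]; exact hnm
      linear_combination hyz + x * h4 + (conj s + q * conj l - conj x) * hmx + q * hl + hm
  · linear_combination x * hyz + hmx


/-! ### A pair of ellipses without the point -/

theorem exists_uv (M : ℂ) (S : ℝ) (h : 2 * ‖M‖ < S) : ∃ u v : ℂ, u * v = M ∧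
    u * conj u + v * conj v = S ∧ ‖v‖ < ‖u‖ ∧ (‖u‖ + ‖v‖) ^ 2 = S + 2 * ‖M‖ := by
  have hM := norm_nonneg M
  have hd : 0 < S ^ 2 - 4 * ‖M‖ ^ 2 := by nlinarith
  obtain ⟨d, hd'⟩ : ∃ d : ℝ, d = Real.sqrt (S ^ 2 - 4 * ‖M‖ ^ 2) := ⟨_, rfl⟩
  have hd0 : 0 < d := by rw [hd']; exact Real.sqrt_pos.2 hd
  have hd2 : d ^ 2 = S ^ 2 - 4 * ‖M‖ ^ 2 := by rw [hd']; exact Real.sq_sqrt hd.le
  have hX : 0 < (S + d) / 2 := by linarith
  obtain ⟨t, ht⟩ : ∃ t : ℝ, t = Real.sqrt ((S + d) / 2) := ⟨_, rfl⟩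
  have ht0 : 0 < t := by rw [ht]; exact Real.sqrt_pos.2 hX
  have ht2 : t ^ 2 = (S + d) / 2 := by rw [ht]; exact Real.sq_sqrt hX.le
  have htc : (t : ℂ) ≠ 0 := by exact_mod_cast ht0.ne'
  have hnu : ‖(t : ℂ)‖ = t := by rw [Complex.norm_real, Real.norm_eq_abs, abs_of_pos ht0]
  have hnv : ‖M / t‖ = ‖M‖ / t := by rw [norm_div, hnu]
  have hnv2 : ‖M / t‖ ^ 2 = (S - d) / 2 := by
    rw [hnv, div_pow, ht2, div_eq_iff hX.ne']
    nlinarith
  have hnu2 : ‖(t : ℂ)‖ ^ 2 = (S + d) / 2 := by rw [hnu, ht2]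
  have hlt : ‖M / t‖ < ‖(t : ℂ)‖ := by
    apply (pow_lt_pow_iff_left₀ (norm_nonneg _) (norm_nonneg _) two_ne_zero).1
    rw [hnv2, hnu2]; linarith
  refine ⟨t, M / t, mul_div_cancel₀ M htc, ?_, hlt, ?_⟩
  · rw [Complex.mul_conj, Complex.mul_conj, Complex.normSq_eq_norm_sq, Complex.normSq_eq_norm_sq,
      hnv2, hnu2]
    push_cast; ring
  · have : ‖(t : ℂ)‖ * ‖M / t‖ = ‖M‖ := by rw [hnv, hnu]; field_simp
    nlinarith

theorem euler_example : ∃ E F : Ellipse, F.curve ⊆ E.inside ∧ E.center ≠ F.center ∧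
    ¬ AxesParallel E F ∧ (∃ A B C : ℂ, IsPeriodic E F A B C) ∧
    ∀ (P : ℂ) (k : ℝ), ∃ (A B C O : ℂ) (r : ℝ), IsPeriodic E F A B C ∧ EulerCircle A B C O r ∧
      power P O r ≠ k := by
  obtain ⟨c₁, hc₁⟩ : ∃ c₁ : ℂ, c₁ = ⟨1 / 2, 1 / 10⟩ := ⟨_, rfl⟩
  obtain ⟨M, hM⟩ : ∃ M : ℂ, M = ⟨-2 / 175, 1 / 40⟩ := ⟨_, rfl⟩
  have hMn2 : ‖M‖ ^ 2 = 4 / 30625 + 1 / 1600 := by
    rw [← Complex.normSq_eq_norm_sq, hM, Complex.normSq_mk]; norm_num
  have hcn2 : ‖c₁‖ ^ 2 = 13 / 50 := by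
    rw [← Complex.normSq_eq_norm_sq, hc₁, Complex.normSq_mk]; norm_num
  have hMn : ‖M‖ < 28 / 1000 := by
    have := norm_nonneg M
    by_contra hcon
    push Not at hcon
    nlinarith
  have hcn : ‖c₁‖ < 51 / 100 := by
    have := norm_nonneg c₁
    by_contra hcon
    push Not at hcon
    nlinarith
  obtain ⟨u₁, v₁, huv, hS, hlt, hsum⟩ := exists_uv M (172 / 1225) (by linarith)
  have hsum' : ‖u₁‖ + ‖v₁‖ < 45 / 100 := by
    have h1 := norm_nonneg u₁
    have h2 := norm_nonneg v₁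
    by_contra hcon
    push Not at hcon
    nlinarith
  have h21 : ‖(1 : ℂ)‖ < ‖(2 : ℂ)‖ := by simp
  obtain ⟨E, hE⟩ := exists_ellipse 0 2 1 h21
  have hlt' : ‖2 * v₁ + 1 * conj u₁‖ < ‖2 * u₁ + 1 * conj v₁‖ := by
    rw [norm_lt_iff] at hlt ⊢
    have : (2 * u₁ + 1 * conj v₁) * conj (2 * u₁ + 1 * conj v₁) -
        (2 * v₁ + 1 * conj u₁) * conj (2 * v₁ + 1 * conj u₁) =
        ((3 : ℝ) : ℂ) * (u₁ * conj u₁ - v₁ * conj v₁) := by
      simp only [map_add, map_mul, map_one, Complex.conj_ofNat, Complex.conj_conj]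
      push_cast
      ring
    rw [this, Complex.re_ofReal_mul]
    linarith
  obtain ⟨F, hF⟩ := exists_ellipse (0 + 2 * c₁ + 1 * conj c₁) (2 * u₁ + 1 * conj v₁)
    (2 * v₁ + 1 * conj u₁) hlt'
  have hr : Rel2 0 2 1 (0 + 2 * c₁ + 1 * conj c₁) (2 * u₁ + 1 * conj v₁)
    (2 * v₁ + 1 * conj u₁) c₁ u₁ v₁ := ⟨hlt, rfl, rfl, rfl⟩
  have hq : c₁ ^ 2 - 4 * u₁ * v₁ = 2 / 7 := by
    rw [mul_assoc, huv, hc₁, hM]
    apply Complex.ext
    · simp [pow_two]; norm_num
    · simp [pow_two]; norm_num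
  have hs : 2 * c₁ = ⟨1, 1 / 5⟩ := by
    rw [hc₁]
    apply Complex.ext
    · simp
    · simp; norm_num
  have hcc : c₁ * conj c₁ = 13 / 50 := by
    rw [Complex.mul_conj, Complex.normSq_eq_norm_sq, hcn2]; push_cast; ring
  have hh : 2 * c₁ * conj c₁ - 4 * (u₁ * conj u₁ + v₁ * conj v₁) = 4 * c₁ * conj c₁ - 1 -
      (c₁ ^ 2 - 4 * u₁ * v₁) * conj (c₁ ^ 2 - 4 * u₁ * v₁) := by
    rw [hq, hS]
    simp only [map_div₀, Complex.conj_ofNat]
    push_cast
    linear_combination (-2 : ℂ) * hcc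
  -- the three triangles
  have tri : ∀ x l : ℂ, x * conj x = 1 → l * conj l = 1 →
      l * (1 - conj (⟨1, 1 / 5⟩ : ℂ) * x + conj (2 / 7 : ℂ) * x ^ 2) =
        x ^ 3 - (⟨1, 1 / 5⟩ : ℂ) * x ^ 2 + (2 / 7 : ℂ) * x →
      (⟨1, 1 / 5⟩ : ℂ) + conj (2 / 7 : ℂ) * l - x ≠ 0 →
      (((⟨1, 1 / 5⟩ : ℂ) + conj (2 / 7 : ℂ) * l - x) *
        conj ((⟨1, 1 / 5⟩ : ℂ) + conj (2 / 7 : ℂ) * l - x)).re < 4 →
      x ^ 3 - ((⟨1, 1 / 5⟩ : ℂ) + conj (2 / 7 : ℂ) * l - x) * x ^ 2 + l ≠ 0 →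
      ∃ A B C O : ℂ, ∃ r : ℝ, IsPeriodic E F A B C ∧ EulerCircle A B C O r ∧
        ∀ π : ℂ, 4 * ((power (0 + 2 * π + 1 * conj π) O r : ℝ) : ℂ) =
          K2 2 1 ⟨1, 1 / 5⟩ (2 / 7) π + κ 2 1 ⟨1, 1 / 5⟩ (2 / 7) π * l +
            conj (κ 2 1 ⟨1, 1 / 5⟩ (2 / 7) π * l) := by
    intro x l hx hl hB hn0 hn hne
    obtain ⟨y, z, hy, hz, hxy, hyz, hxz, hf, hl'⟩ := exists_triangle hx hl hB hn0 hn hne
    have hf' : Fam (2 * c₁) (c₁ ^ 2 - 4 * u₁ * v₁) x y z := by
      rw [hq, hs]; exact hf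
    obtain ⟨O, r, hO⟩ := exists_euler (c := 0) h21 hx hy hz hxy hyz hxz
    refine ⟨_, _, _, O, r, periodic_of_fam hE hF hr hx hy hz hxy hyz hxz hf' hh, hO, ?_⟩
    intro π
    rw [← hl']
    exact euler_power hx hy hz hxy hyz hxz hf hO π
  have hq' : conj (2 / 7 : ℂ) = 2 / 7 := by simp only [map_div₀, Complex.conj_ofNat]
  obtain ⟨A₁, B₁, C₁, O₁, r₁, hp₁, he₁, hk₁⟩ := tri 1 ⟨51 / 149, -140 / 149⟩ (by simp)
    (by
      rw [Complex.mul_conj, Complex.normSq_mk]; norm_num)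
    (by
      rw [hq']
      apply Complex.ext
      · simp; norm_num
      · simp; norm_num)
    (by
      rw [hq']
      intro h0
      have := congrArg Complex.re h0
      simp at this)
    (by
      rw [hq', Complex.mul_conj, Complex.ofReal_re, Complex.normSq_apply]
      simp
      norm_num)
    (by
      rw [hq']
      intro h0
      have := congrArg Complex.re h0
      simp at this
      norm_num at this)
  obtain ⟨A₂, B₂, C₂, O₂, r₂, hp₂, he₂, hk₂⟩ := tri (-1) ⟨-6351 / 6449, -1120 / 6449⟩ (by simp)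
    (by
      rw [Complex.mul_conj, Complex.normSq_mk]; norm_num)
    (by
      rw [hq']
      apply Complex.ext
      · simp; norm_num
      · simp; norm_num)
    (by
      rw [hq']
      intro h0
      have := congrArg Complex.re h0
      simp at this
      norm_num at this)
    (by
      rw [hq', Complex.mul_conj, Complex.ofReal_re, Complex.normSq_apply]
      simp
      norm_num)
    (by
      rw [hq']
      intro h0
      have := congrArg Complex.re h0
      simp at this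
      norm_num at this)
  obtain ⟨A₃, B₃, C₃, O₃, r₃, hp₃, he₃, hk₃⟩ := tri Complex.I ⟨1260 / 1549, 901 / 1549⟩ (by simp)
    (by
      rw [Complex.mul_conj, Complex.normSq_mk]; norm_num)
    (by
      rw [hq']
      apply Complex.ext
      · simp [pow_succ]; norm_num
      · simp [pow_succ]; norm_num)
    (by
      rw [hq']
      intro h0
      have := congrArg Complex.re h0
      simp at this
      norm_num at this)
    (by
      rw [hq', Complex.mul_conj, Complex.ofReal_re, Complex.normSq_apply]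
      simp
      norm_num)
    (by
      rw [hq']
      intro h0
      have := congrArg Complex.re h0
      simp [pow_succ] at this
      norm_num at this)
  refine ⟨E, F, ?_, ?_, ?_, ⟨A₁, B₁, C₁, hp₁⟩, ?_⟩
  · intro w hw
    obtain ⟨ζ, rfl⟩ := surj hF.lt (0 + 2 * c₁ + 1 * conj c₁) w
    rw [hF.mem_curve] at hw
    rw [hr.eval, hE.mem_inside]
    refine (norm_add_le _ _).trans_lt ?_
    have h1 := norm_add_le c₁ (u₁ * ζ)
    rw [norm_mul, hw, mul_one] at h1
    rw [norm_mul, RCLike.norm_conj, hw, mul_one]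
    linarith
  · intro h0
    unfold Ellipse.center at h0
    rw [hE.cen, hF.cen, hc₁] at h0
    have := congrArg Complex.re h0
    simp at this
    norm_num at this
  · unfold AxesParallel
    intro h0
    have h1 : (((E.f - E.g) * conj (F.f - F.g)) ^ 2).im = 0 := by
      rw [pow_two, Complex.mul_im]
      rcases h0 with h0 | h0
      · rw [h0]; ring
      · rw [h0]; ring
    rw [mul_pow, ← map_pow, hE.foc, hF.foc] at h1
    have h2 : (2 * u₁ + 1 * conj v₁) * (2 * v₁ + 1 * conj u₁) =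
        4 * M + 2 * ((172 / 1225 : ℝ) : ℂ) + conj M := by
      have h3 : conj M = conj u₁ * conj v₁ := by rw [← huv, map_mul]
      rw [h3]
      linear_combination 4 * huv + 2 * hS
    rw [h2, hM] at h1
    simp only [map_add, map_mul, Complex.conj_ofNat, Complex.conj_ofReal, Complex.conj_conj] at h1
    have h4 : ((16 : ℂ) * (2 * 1) * (16 * (4 * (starRingEnd ℂ) (⟨-2 / 175, 1 / 40⟩ : ℂ) +
        2 * ((172 / 1225 : ℝ) : ℂ) + ⟨-2 / 175, 1 / 40⟩))).im = -192 / 5 := by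
      simp
      norm_num
    rw [h4] at h1
    norm_num at h1
  · intro P k
    by_contra hcon
    push Not at hcon
    obtain ⟨π, rfl⟩ := surj h21 0 P
    have e1 := hk₁ π
    have e2 := hk₂ π
    have e3 := hk₃ π
    rw [hcon _ _ _ _ _ hp₁ he₁] at e1
    rw [hcon _ _ _ _ _ hp₂ he₂] at e2
    rw [hcon _ _ _ _ _ hp₃ he₃] at e3
    have hre : (κ 2 1 ⟨1, 1 / 5⟩ (2 / 7) π).re = 10 / 7 := by
      have : κ 2 1 ⟨1, 1 / 5⟩ (2 / 7) π = 2 * (conj (⟨1, 1 / 5⟩ : ℂ) - ⟨1, 1 / 5⟩ * (2 / 7)) +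
          (4 / 7) * ((⟨1, 1 / 5⟩ - 2 * π) - conj ((⟨1, 1 / 5⟩ : ℂ) - 2 * π)) := by
        unfold κ
        rw [hq']
        simp only [map_one, Complex.conj_ofNat]
        ring
      rw [this]
      simp
      norm_num
    obtain ⟨w, hw⟩ : ∃ w : ℂ, w = κ 2 1 ⟨1, 1 / 5⟩ (2 / 7) π := ⟨_, rfl⟩
    rw [← hw] at e1 e2 e3 hre
    have d12 := congrArg Complex.re (e1.symm.trans e2)
    have d13 := congrArg Complex.re (e1.symm.trans e3)
    simp only [Complex.add_re, Complex.conj_re, Complex.mul_re, hre] at d12 d13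
    linarith

end Pool.Agent.Poncelet543
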